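import Pool.Agent.H24.GS.Stm

set_option autoImplicit false

noncomputable section

namespace Pool.Agent.H50.GS

open Complex Set Filter Topology MeasureTheory Metric
open Pool.Agent.H172R3.SM Pool.Agent.H24.GS
open scoped ContDiff

/-- the smooth majorant of `2 q⁺` -/
def dF (e y : ℝ) : ℝ := √(y ^ 2 + e ^ 2) + y
def dF1 (e y : ℝ) : ℝ := 2 * y / (2 * √(y ^ 2 + e ^ 2)) + 1
def dF2 (e y : ℝ) : ℝ :=
  (2 * (2 * √(y ^ 2 + e ^ 2)) - 2 * y * (2 * (2 * y / (2 * √(y ^ 2 + e ^ 2))))) /
    (2 * √(y ^ 2 + e ^ 2)) ^ 2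

theorem hasDerivAt_sq (e y : ℝ) : HasDerivAt (fun y : ℝ => y ^ 2 + e ^ 2) (2 * y) y := by
  have := (hasDerivAt_pow 2 y).add_const (e ^ 2)
  simpa using this

theorem hasDerivAt_dF {e : ℝ} (he : 0 < e) (y : ℝ) : HasDerivAt (dF e) (dF1 e y) y := by
  unfold dF dF1
  exact ((hasDerivAt_sq e y).sqrt (by positivity)).add (hasDerivAt_id y)

theorem hasDerivAt_dF1 {e : ℝ} (he : 0 < e) (y : ℝ) : HasDerivAt (dF1 e) (dF2 e y) y := by
  unfold dF1 dF2
  have h1 : HasDerivAt (fun y : ℝ => 2 * y) 2 y := by simpa using (hasDerivAt_id y).const_mul 2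
  have h2 := ((hasDerivAt_sq e y).sqrt (by positivity)).const_mul 2
  have h3 := (h1.div h2 (by positivity)).add_const 1
  exact h3

theorem dF2_nonneg {e : ℝ} (he : 0 < e) (y : ℝ) : 0 ≤ dF2 e y := by
  unfold dF2
  have hs : 0 < √(y ^ 2 + e ^ 2) := by positivity
  have hs2 : √(y ^ 2 + e ^ 2) ^ 2 = y ^ 2 + e ^ 2 := Real.sq_sqrt (by positivity)
  set s := √(y ^ 2 + e ^ 2)
  apply div_nonneg _ (by positivity)
  have : 2 * (2 * s) - 2 * y * (2 * (2 * y / (2 * s))) = 4 * (s ^ 2 - y ^ 2) / s := by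
    field_simp
    ring
  rw [this, hs2]
  have : y ^ 2 + e ^ 2 - y ^ 2 = e ^ 2 := by ring
  rw [this]
  positivity

theorem dF1_mul {e : ℝ} (he : 0 < e) {k q l : ℝ} (hk : 0 ≤ k ∧ k ≤ 1) (hl : k * q ≤ l) :
    - e ≤ dF1 e q * l := by
  unfold dF1
  have hs : 0 < √(q ^ 2 + e ^ 2) := by positivity
  have hs2 : √(q ^ 2 + e ^ 2) ^ 2 = q ^ 2 + e ^ 2 := Real.sq_sqrt (by positivity)
  set s := √(q ^ 2 + e ^ 2)
  have hqs : |q| ≤ s := abs_le_of_sq_le_sq (by nlinarith [sq_nonneg e]) hs.le
  have hes : e ≤ s := by nlinarith [sq_nonneg q]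
  have h1 : 2 * q / (2 * s) + 1 = (s + q) / s := by field_simp; ring
  rw [h1]
  have h2 : 0 ≤ (s + q) / s := by
    apply div_nonneg _ hs.le
    linarith [neg_abs_le q]
  have h3 : (s + q) / s * (k * q) ≤ (s + q) / s * l := mul_le_mul_of_nonneg_left hl h2
  refine le_trans ?_ h3
  rcases le_total 0 q with hq | hq
  · have : 0 ≤ (s + q) / s * (k * q) := mul_nonneg h2 (mul_nonneg hk.1 hq)
    linarith
  · have h4 : (s + q) / s * q ≤ (s + q) / s * (k * q) := by
      apply mul_le_mul_of_nonneg_left _ h2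
      nlinarith [hk.2]
    refine le_trans ?_ h4
    rw [div_mul_eq_mul_div, le_div_iff₀ hs]
    have hq' : |q| = - q := abs_of_nonpos hq
    rw [hq'] at hqs
    have h5 : (s + q) * (s - q) = e ^ 2 := by nlinarith
    have h6 : (s + q) ≤ e := by nlinarith
    nlinarith

theorem lap_dF {e : ℝ} (he : 0 < e) {q k : ℂ → ℝ} (hq : ContDiff ℝ ∞ q) (z : ℂ)
    (hk : 0 ≤ k z ∧ k z ≤ 1) (hl : k z * q z ≤ lap q z) :
    - e ≤ lap (fun z => dF e (q z)) z := by
  rw [lap_comp hq (hasDerivAt_dF he) (hasDerivAt_dF1 he) z]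
  have h1 := dF1_mul he hk hl
  have h2 := mul_nonneg (dF2_nonneg he (q z)) (by positivity : 0 ≤ dx q z ^ 2 + dy q z ^ 2)
  linarith

theorem contDiff_dF {e : ℝ} (he : 0 < e) {q : ℂ → ℝ} (hq : ContDiff ℝ ∞ q) :
    ContDiff ℝ ∞ (fun z => dF e (q z)) := by
  unfold dF
  exact (((hq.pow 2).add contDiff_const).sqrt (fun z => by positivity)).add hq

/-- circle integral of the quadratic function -/
theorem CM_qd (η : ℝ) (x : ℂ) (t : ℝ) :
    CM x (qd η) t = 2 * Real.pi * (η * (normSq x + Real.exp t ^ 2)) := by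
  unfold CM qd
  have h1 : ∀ θ : ℝ, η * normSq (pt x t θ) = η * (normSq x + Real.exp t ^ 2) +
      (2 * η * Real.exp t * x.re) * Real.cos θ + (2 * η * Real.exp t * x.im) * Real.sin θ := by
    intro θ
    have h2 : pt x t θ = x + ((Real.exp t : ℝ) : ℂ) * (Real.cos θ + Real.sin θ * I) := by
      unfold pt
      rw [Complex.exp_add, Complex.exp_mul_I]
      push_cast
      rfl
    rw [h2, normSq_apply, normSq_apply]
    simp only [add_re, mul_re, add_im, mul_im, ofReal_re, ofReal_im, I_re, I_im]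
    have := Real.sin_sq_add_cos_sq θ
    linear_combination (η * Real.exp t ^ 2) * this
  simp_rw [h1]
  rw [intervalIntegral.integral_add, intervalIntegral.integral_add,
    intervalIntegral.integral_const_mul (2 * η * Real.exp t * x.re),
    intervalIntegral.integral_const_mul (2 * η * Real.exp t * x.im), integral_cos,
    integral_sin, intervalIntegral.integral_const]
  · rw [Real.sin_neg, Real.sin_pi, Real.cos_neg, smul_eq_mul]
    ring
  all_goals exact Continuous.intervalIntegrable (by fun_prop) _ _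

/-- the mean value inequality on circles -/
theorem circle_ineq {e : ℝ} {G : ℂ → ℝ} (hG : ContDiff ℝ ∞ G) (x : ℂ)
    (hl : ∀ z, ‖z - x‖ ≤ 1 → - e ≤ lap G z) {t : ℝ} (ht : t ≤ 0) (he : 0 < e) :
    2 * Real.pi * (G x - e / 4) ≤ CM x G t := by
  have hqd : ContDiff ℝ ∞ (qd (e / 4)) := contDiff_const.mul contDiff_normSq
  have hs : ContDiff ℝ ∞ (fun z => G z + qd (e / 4) z) := hG.add hqd
  have h1 : ∀ z, ‖z - x‖ ≤ Real.exp 0 → 0 ≤ lap (fun z => G z + qd (e / 4) z) z := by
    intro z hz
    rw [Real.exp_zero] at hz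
    rw [lap_add_at (hG.contDiffAt.of_le two_le_inf) (hqd.contDiffAt.of_le two_le_inf), lap_qd]
    have := hl z hz
    linarith
  have h2 : 2 * Real.pi * (G x + qd (e / 4) x) ≤ CM x (fun z => G z + qd (e / 4) z) t := by
    refine le_of_tendsto (tendsto_CM hs.continuous x) ?_
    filter_upwards [eventually_le_atBot t] with t' ht'
    exact CM_mono_local hs x h1 ht' ht
  rw [CM_add x hG.continuous hqd.continuous, CM_qd] at h2
  unfold qd at h2
  have h3 : Real.exp t ^ 2 ≤ 1 := by
    have := Real.exp_le_one_iff.2 ht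
    have := Real.exp_pos t
    nlinarith
  have hpi := Real.pi_pos
  have h4 : 0 ≤ 2 * Real.pi * (e / 4) * (1 - Real.exp t ^ 2) :=
    mul_nonneg (by positivity) (by linarith)
  nlinarith

/-- the mean value inequality on the unit disc -/
theorem disc_ineq {e : ℝ} {G : ℂ → ℝ} (hG : ContDiff ℝ ∞ G) (x : ℂ)
    (hl : ∀ z, ‖z - x‖ ≤ 1 → - e ≤ lap G z) (he : 0 < e) :
    Real.pi * (G x - e / 4) ≤ ∫ w in ball (0 : ℂ) 1, G (x + w) := by
  have hpi := Real.pi_pos
  rw [← integral_indicator measurableSet_ball, ← Complex.integral_comp_polarCoord_symm]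
  set S : Set (ℝ × ℝ) := {p | p.1 < 1} with hS
  have hSm : MeasurableSet S := measurableSet_lt measurable_fst measurable_const
  set F : ℝ × ℝ → ℝ := fun p => p.1 * G (x + p.1 * (Real.cos p.2 + Real.sin p.2 * I)) with hF
  have hFc : Continuous F := by
    have := hG.continuous
    fun_prop
  have h1 : ∫ p in polarCoord.target, p.1 • (ball (0 : ℂ) 1).indicator (fun w => G (x + w))
      (Complex.polarCoord.symm p) = ∫ p in polarCoord.target, S.indicator F p := by
    refine setIntegral_congr_fun (polarCoord.open_target.measurableSet) fun p hp => ?_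
    rw [polarCoord_target] at hp
    have hp0 : 0 < p.1 := hp.1
    simp only [smul_eq_mul]
    have h2 : Complex.polarCoord.symm p = (p.1 : ℂ) * (Real.cos p.2 + Real.sin p.2 * I) :=
      Complex.polarCoord_symm_apply p
    have h3 : ‖Complex.polarCoord.symm p‖ = p.1 := by
      rw [Complex.norm_polarCoord_symm, abs_of_pos hp0]
    by_cases h : p.1 < 1
    · have h4 : Complex.polarCoord.symm p ∈ ball (0 : ℂ) 1 := by
        rw [mem_ball_zero_iff, h3]
        exact h
      rw [indicator_of_mem h4, indicator_of_mem (show p ∈ S from h), h2]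
    · have h4 : Complex.polarCoord.symm p ∉ ball (0 : ℂ) 1 := by
        rw [mem_ball_zero_iff, h3]
        exact h
      rw [indicator_of_notMem h4, indicator_of_notMem (show p ∉ S from h), mul_zero]
  rw [h1, setIntegral_indicator hSm]
  have h2 : polarCoord.target ∩ S = Ioo (0 : ℝ) 1 ×ˢ Ioo (-Real.pi) Real.pi := by
    rw [polarCoord_target]
    ext p
    simp only [hS, mem_inter_iff, mem_prod, mem_Ioi, mem_Ioo, mem_ofPred_eq]
    tauto
  rw [h2]
  have hFi : IntegrableOn F (Ioo (0 : ℝ) 1 ×ˢ Ioo (-Real.pi) Real.pi)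
      ((volume : Measure ℝ).prod (volume : Measure ℝ)) := by
    have h3 : IntegrableOn F (Icc (0 : ℝ) 1 ×ˢ Icc (-Real.pi) Real.pi)
        ((volume : Measure ℝ).prod (volume : Measure ℝ)) :=
      hFc.continuousOn.integrableOn_compact (isCompact_Icc.prod isCompact_Icc)
    exact h3.mono_set (prod_mono Ioo_subset_Icc_self Ioo_subset_Icc_self)
  rw [Measure.volume_eq_prod, setIntegral_prod F hFi]
  have hin : IntegrableOn (fun r => ∫ θ in Ioo (-Real.pi) Real.pi, F (r, θ)) (Ioo (0 : ℝ) 1) := by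
    unfold IntegrableOn at hFi
    rw [← Measure.prod_restrict] at hFi
    exact hFi.integral_prod_left
  have hle : ∫ r in Ioo (0 : ℝ) 1, r * (2 * Real.pi * (G x - e / 4)) ≤
      ∫ r in Ioo (0 : ℝ) 1, ∫ θ in Ioo (-Real.pi) Real.pi, F (r, θ) := by
    refine setIntegral_mono_on ?_ hin measurableSet_Ioo fun r hr => ?_
    · have h3 : IntegrableOn (fun r : ℝ => r * (2 * Real.pi * (G x - e / 4))) (Icc 0 1) :=
        (by fun_prop : Continuous fun r : ℝ => r * (2 * Real.pi * (G x - e / 4))).continuousOn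
          |>.integrableOn_compact isCompact_Icc
      exact h3.mono_set Ioo_subset_Icc_self
    · have h3 := circle_ineq hG x hl (t := Real.log r) (Real.log_nonpos hr.1.le hr.2.le) he
      have h4 : ∫ θ in Ioo (-Real.pi) Real.pi, F (r, θ) = r * CM x G (Real.log r) := by
        unfold CM
        rw [intervalIntegral.integral_of_le (by linarith), ← integral_Ioc_eq_integral_Ioo,
          ← integral_const_mul]
        refine setIntegral_congr_fun measurableSet_Ioc fun θ _ => ?_
        show r * G (x + r * (Real.cos θ + Real.sin θ * I)) = r * G (pt x (Real.log r) θ)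
        congr 2
        unfold pt
        rw [Complex.exp_add, Complex.exp_mul_I, ← Complex.ofReal_exp, Real.exp_log hr.1]
        push_cast
        rfl
      rw [h4]
      exact mul_le_mul_of_nonneg_left h3 hr.1.le
  refine le_trans (le_of_eq ?_) hle
  rw [← integral_Ioc_eq_integral_Ioo, ← intervalIntegral.integral_of_le zero_le_one,
    intervalIntegral.integral_mul_const, integral_id]
  ring

/-- the tails of an integrable function over unit discs -/
theorem tail {f : ℂ → ℝ} (hf : Integrable f) (hf0 : ∀ z, 0 ≤ f z) {δ : ℝ} (hδ : 0 < δ) :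
    ∃ r : ℝ, ∀ x : ℂ, r ≤ ‖x‖ → ∫ w in ball (0 : ℂ) 1, f (x + w) ≤ δ := by
  have h1 := tendsto_setIntegral_of_antitone (μ := (volume : Measure ℂ)) (f := f)
    (s := fun n : ℕ => {z : ℂ | (n : ℝ) ≤ ‖z‖})
    (fun n => measurableSet_le measurable_const measurable_norm)
    (fun m n hmn z (hz : (n : ℝ) ≤ ‖z‖) =>
      show (m : ℝ) ≤ ‖z‖ from le_trans (by exact_mod_cast hmn) hz) ⟨0, hf.integrableOn⟩
  have h2 : ⋂ n : ℕ, {z : ℂ | (n : ℝ) ≤ ‖z‖} = ∅ := by
    ext z
    simp only [mem_iInter, mem_ofPred_eq, mem_empty_iff_false, iff_false, not_forall, not_le]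
    exact exists_nat_gt ‖z‖
  rw [h2, setIntegral_empty] at h1
  obtain ⟨n, hn⟩ := (h1.eventually (gt_mem_nhds hδ)).exists
  refine ⟨n + 1, fun x hx => ?_⟩
  have h3 : ∫ w in ball (0 : ℂ) 1, f (x + w) = ∫ z in ball x 1, f z := by
    have h4 : ball (0 : ℂ) 1 = (fun w => x + w) ⁻¹' ball x 1 := by
      ext w
      simp
    rw [h4]
    exact (measurePreserving_add_left volume x).setIntegral_preimage_emb
      (MeasurableEquiv.addLeft x).measurableEmbedding f (ball x 1)
  rw [h3]
  refine le_trans ?_ hn.le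
  refine setIntegral_mono_set hf.integrableOn (ae_of_all _ hf0) ?_
  refine (LE.le.eventuallyLE ?_)
  intro z hz
  have h5 : ‖z - x‖ < 1 := by simpa [dist_eq_norm] using hz
  have h6 : ‖x‖ ≤ ‖z‖ + ‖z - x‖ := by
    have := norm_sub_le z (z - x)
    simpa using this
  show (n : ℝ) ≤ ‖z‖
  linarith

theorem t_DEC : S_DEC := by
  intro q k r0 hq hk hl hint ε hε
  set e := ε / 2 with he
  have he0 : 0 < e := by positivity
  obtain ⟨r, hr⟩ := tail hint (fun z => sq_nonneg _) (δ := e ^ 2) (by positivity)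
  refine ⟨max r (r0 + 1), fun x hx => ?_⟩
  have hx1 : r ≤ ‖x‖ := le_trans (le_max_left _ _) hx
  have hx2 : r0 + 1 ≤ ‖x‖ := le_trans (le_max_right _ _) hx
  have hG := contDiff_dF he0 hq
  have h1 := disc_ineq (e := e) hG x (fun z hz => lap_dF he0 hq z (hk z) (hl z (by
    have : ‖x‖ ≤ ‖z‖ + ‖z - x‖ := by
      have := norm_sub_le z (z - x)
      simpa using this
    linarith))) he0
  have hpi := Real.pi_pos
  have hpi3 := Real.pi_gt_three
  have h2 : ∫ w in ball (0 : ℂ) 1, dF e (q (x + w)) ≤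
      ∫ w in ball (0 : ℂ) 1, (2 * e + e⁻¹ * q (x + w) ^ 2) := by
    refine setIntegral_mono_on ?_ ?_ measurableSet_ball fun w _ => ?_
    · have h3 : Continuous fun w => dF e (q (x + w)) := by
        have := hG.continuous
        exact this.comp (continuous_const.add continuous_id)
      exact (h3.continuousOn.integrableOn_compact (isCompact_closedBall 0 1)).mono_set
        ball_subset_closedBall
    · have h3 : Continuous fun w => 2 * e + e⁻¹ * q (x + w) ^ 2 := by
        have := hq.continuous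
        fun_prop
      exact (h3.continuousOn.integrableOn_compact (isCompact_closedBall 0 1)).mono_set
        ball_subset_closedBall
    · unfold dF
      have h4 : √(q (x + w) ^ 2 + e ^ 2) ≤ |q (x + w)| + e := by
        rw [Real.sqrt_le_left (by positivity)]
        have := sq_abs (q (x + w))
        nlinarith [abs_nonneg (q (x + w))]
      have h5 : 2 * |q (x + w)| ≤ e + e⁻¹ * q (x + w) ^ 2 := by
        have h6 : e⁻¹ * (|q (x + w)| - e) ^ 2 ≥ 0 := by positivity
        have h7 : e⁻¹ * (|q (x + w)| - e) ^ 2 = e⁻¹ * q (x + w) ^ 2 - 2 * |q (x + w)| + e := by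
          rw [← sq_abs (q (x + w))]
          field_simp
          ring
        linarith
      linarith [le_abs_self (q (x + w))]
  have h3 : ∫ w in ball (0 : ℂ) 1, (2 * e + e⁻¹ * q (x + w) ^ 2) =
      Real.pi * (2 * e) + e⁻¹ * ∫ w in ball (0 : ℂ) 1, q (x + w) ^ 2 := by
    rw [integral_add, integral_const_mul e⁻¹, setIntegral_const]
    · congr 1
      rw [Measure.real, Complex.volume_ball]
      simp
    · exact (continuous_const.continuousOn.integrableOn_compact
        (isCompact_closedBall 0 1)).mono_set ball_subset_closedBall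
    · have h3 : Continuous fun w => e⁻¹ * q (x + w) ^ 2 := by
        have := hq.continuous
        fun_prop
      exact (h3.continuousOn.integrableOn_compact (isCompact_closedBall 0 1)).mono_set
        ball_subset_closedBall
  have h4 : e⁻¹ * ∫ w in ball (0 : ℂ) 1, q (x + w) ^ 2 ≤ e := by
    calc e⁻¹ * ∫ w in ball (0 : ℂ) 1, q (x + w) ^ 2 ≤ e⁻¹ * e ^ 2 :=
          mul_le_mul_of_nonneg_left (hr x hx1) (by positivity)
      _ = e := by field_simp
  have h5 : Real.pi * (dF e (q x) - e / 4) ≤ Real.pi * (2 * e) + e := by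
    calc _ ≤ _ := h1
      _ ≤ _ := h2
      _ = _ := h3
      _ ≤ _ := by linarith
  have h6 : dF e (q x) ≤ 3 * e := by
    have h7 : Real.pi * (dF e (q x) - e / 4) ≤ Real.pi * (2 * e) + Real.pi * (e / 3) := by
      nlinarith
    have h8 : dF e (q x) - e / 4 ≤ 2 * e + e / 3 := by
      rw [← mul_add] at h7
      exact le_of_mul_le_mul_left h7 hpi
    linarith
  unfold dF at h6
  have h7 : |q x| ≤ √(q x ^ 2 + e ^ 2) := Real.abs_le_sqrt (by nlinarith)
  have h8 := le_abs_self (q x)
  rw [he] at h6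
  linarith

end Pool.Agent.H50.GS
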